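import Pool.Agent.Helper79.GT.St5

/-!
Project GT (MP_c2d095_lc, helper79), module FLX: the fields of a call (variant of Helper81/GS/M_FLD).
-/

set_option autoImplicit false

namespace Pool.Agent.Helper18.GT

open Pool.Agent.Helper79.GT Pool.Agent.Helper79.GS
open Pool.Agent.Helper19.SK Pool.Agent.Helper73.DC Finset
open scoped Classical

private theorem dg_zero (B i : ℕ) : dg B 0 i = 0 := by
  simp [dg]

private theorem dg_ofDigits (B : ℕ) (hB : 0 < B) (l : List ℕ) (hl : ∀ x ∈ l, x < B) (i : ℕ) :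
    dg B (Nat.ofDigits B l) i = l.getD i 0 := by
  induction l generalizing i with
  | nil => simp [dg]
  | cons a l ih =>
    have ha : a < B := hl a (by simp)
    have hl' : ∀ x ∈ l, x < B := fun x hx => hl x (by simp [hx])
    rw [Nat.ofDigits_cons]
    cases i with
    | zero =>
      simp only [dg, pow_zero, Nat.div_one, List.getD_cons_zero, Nat.cast_id]
      rw [Nat.add_mul_mod_self_left, Nat.mod_eq_of_lt ha]
    | succ i =>
      rw [List.getD_cons_succ, ← ih hl' i]
      simp only [dg, Nat.cast_id]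
      rw [pow_succ', ← Nat.div_div_eq_div_mul, Nat.add_mul_div_left _ _ hB, Nat.div_eq_of_lt ha,
        zero_add]

theorem hFLX (hBNX : StBNX) : Pool.Agent.Helper79.GT.StFLX := by
  intro X hX w
  obtain ⟨-, -, h14, -, -, -, -, -, -, hNb, hSd, hXb, -, hR, hS2, hL2, h16, -⟩ := hBNX X hX w
  set B : ℕ := PhX X (NN X.e w) w with hBdef
  have fi0 : ∀ i, fiX X (NN X.e w) w 0 i = 0 := fun i => dg_zero _ _
  refine ⟨?_, ?_, Or.inl rfl, ?_⟩
  · unfold ValX
    simp only [fi0]
    simp [ValFX]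
  · unfold rkX
    simp only [fi0]
    simp [rkFX]
  intro T r c a b u k m fl d s t x hOk
  obtain ⟨hT1, hT7, hr, hc, ha, hb, hu, hk, -, hm, hfl, hd, hs, ht, hx, -⟩ := id hOk
  have hall : ∀ y ∈ [T, r, c, a, b, u, k, m, fl, d, s, t, x], y < B := by
    intro y hy
    simp only [List.mem_cons, List.not_mem_nil, or_false] at hy
    rcases hy with rfl | rfl | rfl | rfl | rfl | rfl | rfl | rfl | rfl | rfl | rfl | rfl | rfl <;>
      omega
  have hB0 : 0 < B := by omega
  have hfi : ∀ i, fiX X (NN X.e w) w (zzX X (NN X.e w) w T r c a b u k m fl d s t x) i =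
      [T, r, c, a, b, u, k, m, fl, d, s, t, x].getD i 0 := fun i => dg_ofDigits B hB0 _ hall i
  have f0 := hfi 0
  have f1 := hfi 1
  have f2 := hfi 2
  have f3 := hfi 3
  have f4 := hfi 4
  have f5 := hfi 5
  have f6 := hfi 6
  have f7 := hfi 7
  have f8 := hfi 8
  have f9 := hfi 9
  have f10 := hfi 10
  have f11 := hfi 11
  have f12 := hfi 12
  simp only [List.getD_cons_zero, List.getD_cons_succ] at f0 f1 f2 f3 f4 f5 f6 f7 f8 f9 f10 f11 f12
  refine ⟨⟨f0, f1, f2, f3, f4, f5, f6, f7, f8, f9, f10, f11, f12⟩, ?_, ?_, ?_,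
    Or.inr ⟨T, r, c, a, b, u, k, m, fl, d, s, t, x, hOk, rfl⟩⟩
  · calc zzX X (NN X.e w) w T r c a b u k m fl d s t x < B ^ 13 :=
        Nat.ofDigits_lt_base_pow_length (by omega) hall
      _ ≤ B ^ 14 := Nat.pow_le_pow_right hB0 (by norm_num)
      _ ≤ NN X.e w := h14
  · unfold ValX
    rw [f0, f1, f2, f3, f4, f5, f6, f7, f8, f9, f10, f11, f12]
  · unfold rkX
    rw [f0, f1, f6, f9]

end Pool.Agent.Helper18.GT
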